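import Pool.Agent.Helper7_AK.A5

set_option autoImplicit false
set_option linter.unusedSectionVars false

/-! Squad AK, module A10: the existence theorem from the a priori inequality. -/

namespace Pool.Agent.AK.H7

open Complex Filter Topology
open scoped ENNReal

section basic

variable {V : Type} [NormedAddCommGroup V]

/-- Polynomial growth. -/
def PG (w : Z4 → V) : Prop := ∃ n : ℕ, ∃ C : ℝ, 0 ≤ C ∧ ∀ k, ‖w k‖ ≤ C * Lam 1 k ^ n

theorem Lam1_pos (k : Z4) : 0 < Lam 1 k := Lam_pos le_rfl k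

theorem Lam1_one (k : Z4) : 1 ≤ Lam 1 k := Lam_one_le le_rfl k

theorem rap_add {a b : Z4 → V} (ha : Rap a) (hb : Rap b) : Rap (fun k => a k + b k) := by
  intro n
  obtain ⟨C, hC⟩ := ha n
  obtain ⟨C', hC'⟩ := hb n
  refine ⟨C + C', fun k => ?_⟩
  have h0 : 0 ≤ Lam 1 k ^ n := (pow_pos (Lam1_pos k) n).le
  calc Lam 1 k ^ n * ‖a k + b k‖ ≤ Lam 1 k ^ n * (‖a k‖ + ‖b k‖) :=
        mul_le_mul_of_nonneg_left (norm_add_le _ _) h0
    _ = Lam 1 k ^ n * ‖a k‖ + Lam 1 k ^ n * ‖b k‖ := by ring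
    _ ≤ C + C' := add_le_add (hC k) (hC' k)

theorem rap_zero : Rap (fun _ : Z4 => (0 : V)) := fun n => ⟨0, fun k => by simp⟩

theorem rap_smul [NormedSpace ℂ V] {a : Z4 → V} (ha : Rap a) (c : ℂ) :
    Rap (fun k => c • a k) := by
  intro n
  obtain ⟨C, hC⟩ := ha n
  refine ⟨‖c‖ * C, fun k => ?_⟩
  rw [norm_smul]
  calc Lam 1 k ^ n * (‖c‖ * ‖a k‖) = ‖c‖ * (Lam 1 k ^ n * ‖a k‖) := by ring
    _ ≤ ‖c‖ * C := mul_le_mul_of_nonneg_left (hC k) (norm_nonneg _)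

theorem rap_neg {a : Z4 → V} (ha : Rap a) : Rap (fun k => - a k) := by
  intro n
  obtain ⟨C, hC⟩ := ha n
  exact ⟨C, fun k => by rw [norm_neg]; exact hC k⟩

theorem rap_sum4 {F : Fin 4 → Z4 → V} (h : ∀ j, Rap (F j)) : Rap (fun k => ∑ j, F j k) := by
  have := rap_add (rap_add (rap_add (h 0) (h 1)) (h 2)) (h 3)
  simpa only [Fin.sum_univ_four] using this

theorem rap_single (k0 : Z4) (e : V) : Rap (Pi.single k0 e : Z4 → V) := by
  intro n
  refine ⟨Lam 1 k0 ^ n * ‖e‖, fun k => ?_⟩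
  by_cases h : k = k0
  · subst h; simp
  · rw [Pi.single_eq_of_ne h]
    have := (pow_pos (Lam1_pos k0) n).le
    simp only [norm_zero, mul_zero]
    positivity

theorem rap_pg {w : Z4 → V} (h : Rap w) : PG w := by
  obtain ⟨C, hC⟩ := h 0
  refine ⟨0, C, ?_, fun k => ?_⟩
  · have := hC 0
    exact le_trans (by positivity) this
  · simpa using hC k

theorem hs_pg {w : Z4 → V} {σ : ℤ} (h : HS σ w) : PG w := by
  refine ⟨σ.natAbs, Real.sqrt (∑' k, Lam 1 k ^ (2 * σ) * ‖w k‖ ^ 2), Real.sqrt_nonneg _,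
    fun k => ?_⟩
  have hx := Lam1_pos k
  have h1 : Lam 1 k ^ (2 * σ) * ‖w k‖ ^ 2 ≤ ∑' k, Lam 1 k ^ (2 * σ) * ‖w k‖ ^ 2 :=
    h.le_tsum k fun l _ => by have := Lam1_pos l; positivity
  have h2 : Lam 1 k ^ σ * ‖w k‖ ≤ Real.sqrt (∑' k, Lam 1 k ^ (2 * σ) * ‖w k‖ ^ 2) := by
    refine Real.le_sqrt_of_sq_le ?_
    rw [mul_pow, ← zpow_two_mul' hx]
    exact h1
  have h3 : ‖w k‖ = Lam 1 k ^ (-σ) * (Lam 1 k ^ σ * ‖w k‖) := by
    rw [← mul_assoc, ← zpow_add₀ hx.ne', neg_add_cancel, zpow_zero, one_mul]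
  have h4 : Lam 1 k ^ (-σ) ≤ Lam 1 k ^ σ.natAbs := by
    rw [← zpow_natCast]
    refine zpow_le_zpow_right₀ (Lam1_one k) ?_
    rw [Int.natCast_natAbs, ← abs_neg]
    exact le_abs_self _
  rw [h3, mul_comm (Real.sqrt _)]
  exact mul_le_mul h4 h2 (by positivity) (by positivity)

theorem PG.dj [NormedSpace ℂ V] {w : Z4 → V} (h : PG w) (j : Fin 4) : PG (dj j w) := by
  obtain ⟨n, C, hC, h⟩ := h
  refine ⟨n + 1, 2 * Real.pi * C, by have := Real.pi_pos; positivity, fun k => ?_⟩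
  have h1 : |((k j : ℤ) : ℝ)| ≤ Lam 1 k := by
    refine Real.abs_le_sqrt ?_
    have : ((k j : ℤ) : ℝ) ^ 2 ≤ sq4 k := by
      unfold sq4
      exact Finset.single_le_sum (f := fun i => ((k i : ℤ) : ℝ) ^ 2) (fun i _ => sq_nonneg _)
        (Finset.mem_univ j)
    linarith
  have h2 : ‖(2 * (Real.pi : ℂ) * Complex.I * ((k j : ℤ) : ℂ))‖ ≤ 2 * Real.pi * Lam 1 k := by
    rw [norm_mul, norm_mul, norm_mul, Complex.norm_I, Complex.norm_real, Real.norm_eq_abs,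
      abs_of_pos Real.pi_pos, mul_one, Complex.norm_intCast]
    have h3 : ‖(2 : ℂ)‖ = 2 := by simp
    rw [h3]
    exact mul_le_mul_of_nonneg_left h1 (by have := Real.pi_pos; positivity)
  show ‖(2 * (Real.pi : ℂ) * Complex.I * ((k j : ℤ) : ℂ)) • w k‖ ≤ _
  rw [norm_smul]
  have hx := Lam1_pos k
  calc _ ≤ (2 * Real.pi * Lam 1 k) * (C * Lam 1 k ^ n) :=
        mul_le_mul h2 (h k) (norm_nonneg _) (by have := Real.pi_pos; positivity)
    _ = 2 * Real.pi * C * Lam 1 k ^ (n + 1) := by ring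

end basic

section conv

variable {V : Type} [NormedAddCommGroup V] {E : Type} [NormedAddCommGroup E]

theorem sum_wt (h1 : A1Stmt) [NormedSpace ℂ E] {a : Z4 → E} (ha : Rap a) (n : ℕ) :
    Summable fun k => Lam 1 k ^ n * ‖a k‖ := by
  obtain ⟨-, -, -, -, -, c6, -⟩ := h1
  obtain ⟨-, h, -⟩ := c6 E 1 (n : ℤ) a le_rfl ha
  simpa only [zpow_natCast] using h

/-- the basic summability. -/
theorem sum_conv (h1 : A1Stmt) [NormedSpace ℂ E] {a : Z4 → E} (ha : Rap a) {w : Z4 → V}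
    (hw : PG w) : ∃ n : ℕ, ∃ C : ℝ, 0 ≤ C ∧ ∀ k,
      (Summable fun l => ‖a (k - l)‖ * ‖w l‖) ∧ ∑' l, ‖a (k - l)‖ * ‖w l‖ ≤ C * Lam 1 k ^ n := by
  obtain ⟨n, C, hC, hw⟩ := hw
  have hs := sum_wt h1 ha n
  refine ⟨n, C * 2 ^ n * ∑' l, Lam 1 l ^ n * ‖a l‖, ?_, fun k => ?_⟩
  · have : 0 ≤ ∑' l, Lam 1 l ^ n * ‖a l‖ := tsum_nonneg fun l => by
      have := Lam1_pos l; positivity
    positivity
  · have hs' : Summable fun l => (C * 2 ^ n * Lam 1 k ^ n) *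
        (Lam 1 (k - l) ^ n * ‖a (k - l)‖) :=
      (((Equiv.subLeft k).summable_iff (f := fun l => Lam 1 l ^ n * ‖a l‖)).2 hs).mul_left _
    have hle : ∀ l, ‖a (k - l)‖ * ‖w l‖ ≤ (C * 2 ^ n * Lam 1 k ^ n) *
        (Lam 1 (k - l) ^ n * ‖a (k - l)‖) := by
      intro l
      have hp : Lam 1 l ≤ Lam 1 k * (2 * Lam 1 (k - l)) := by
        rw [Lam_one_sub]; exact peetre le_rfl l k
      have hp2 : Lam 1 l ^ n ≤ (Lam 1 k * (2 * Lam 1 (k - l))) ^ n :=
        pow_le_pow_left₀ (Lam1_pos l).le hp n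
      calc ‖a (k - l)‖ * ‖w l‖ ≤ ‖a (k - l)‖ * (C * (Lam 1 k * (2 * Lam 1 (k - l))) ^ n) := by
            refine mul_le_mul_of_nonneg_left ?_ (norm_nonneg _)
            exact (hw l).trans (mul_le_mul_of_nonneg_left hp2 hC)
        _ = _ := by rw [mul_pow, mul_pow]; ring
    have hsum := Summable.of_nonneg_of_le (fun l => by positivity) hle hs'
    refine ⟨hsum, ?_⟩
    calc ∑' l, ‖a (k - l)‖ * ‖w l‖ ≤ ∑' l, (C * 2 ^ n * Lam 1 k ^ n) *
        (Lam 1 (k - l) ^ n * ‖a (k - l)‖) := hsum.tsum_le_tsum hle hs'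
      _ = (C * 2 ^ n * Lam 1 k ^ n) * ∑' l, (Lam 1 (k - l) ^ n * ‖a (k - l)‖) := tsum_mul_left
      _ = (C * 2 ^ n * Lam 1 k ^ n) * ∑' l, (Lam 1 l ^ n * ‖a l‖) := by
          congr 1
          exact (Equiv.subLeft k).tsum_eq (fun l => Lam 1 l ^ n * ‖a l‖)
      _ = _ := by ring

variable [NormedSpace ℂ V] [CompleteSpace V]

theorem scv_sum (h1 : A1Stmt) {a : Z4 → ℂ} (ha : Rap a) {w : Z4 → V} (hw : PG w) (k : Z4) :
    Summable fun l => a (k - l) • w l := by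
  obtain ⟨n, C, hC, h⟩ := sum_conv h1 ha hw
  exact Summable.of_norm ((h k).1.congr fun l => by rw [norm_smul])

theorem scv_pg (h1 : A1Stmt) {a : Z4 → ℂ} (ha : Rap a) {w : Z4 → V} (hw : PG w) :
    PG (scv a w) := by
  obtain ⟨n, C, hC, h⟩ := sum_conv h1 ha hw
  refine ⟨n, C, hC, fun k => ?_⟩
  have hs := (h k).1.congr (g := fun l => ‖a (k - l) • w l‖) fun l => by rw [norm_smul]
  refine (norm_tsum_le_tsum_norm hs).trans ?_
  refine le_trans (le_of_eq ?_) (h k).2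
  exact tsum_congr fun l => by rw [norm_smul]

theorem cv_sum (h1 : A1Stmt) {a : Z4 → (V →L[ℂ] V)} (ha : Rap a) {w : Z4 → V} (hw : PG w)
    (k : Z4) : Summable fun l => (a (k - l)) (w l) := by
  obtain ⟨n, C, hC, h⟩ := sum_conv h1 ha hw
  exact Summable.of_norm_bounded (h k).1 fun l => (a (k - l)).le_opNorm (w l)

theorem scv_single (a : Z4 → ℂ) (l k : Z4) (x : V) :
    scv a (Pi.single l x : Z4 → V) k = a (k - l) • x := by
  unfold scv
  rw [tsum_eq_single l]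
  · rw [Pi.single_eq_same]
  · intro l' hl'
    rw [Pi.single_eq_of_ne hl', smul_zero]

theorem cv_single (a : Z4 → (V →L[ℂ] V)) (l k : Z4) (x : V) :
    cv a (Pi.single l x : Z4 → V) k = (a (k - l)) x := by
  unfold cv
  rw [tsum_eq_single l]
  · rw [Pi.single_eq_same]
  · intro l' hl'
    rw [Pi.single_eq_of_ne hl', map_zero]

theorem dj_single (j : Fin 4) (l : Z4) (x : V) :
    dj j (Pi.single l x : Z4 → V) =
      (Pi.single l ((2 * (Real.pi : ℂ) * Complex.I * ((l j : ℤ) : ℂ)) • x) : Z4 → V) := by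
  funext k
  unfold dj
  by_cases h : k = l
  · subst h; simp
  · rw [Pi.single_eq_of_ne h, Pi.single_eq_of_ne h, smul_zero]

theorem scv_dj_hasSum (h1 : A1Stmt) {a : Z4 → ℂ} (ha : Rap a) (j : Fin 4) {w : Z4 → V}
    (hw : PG w) (k : Z4) :
    HasSum (fun l => scv a (dj j (Pi.single l (w l) : Z4 → V)) k) (scv a (dj j w) k) := by
  have h := (scv_sum h1 ha (hw.dj j) k).hasSum
  have e : (fun l => scv a (dj j (Pi.single l (w l) : Z4 → V)) k) =
      fun l => a (k - l) • dj j w l := by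
    funext l
    rw [dj_single, scv_single]
    rfl
  rw [e]
  exact h

theorem vf_hasSum (h1 : A1Stmt) {a : Fin 4 → Z4 → ℂ} (ha : ∀ j, Rap (a j)) {w : Z4 → V}
    (hw : PG w) (k : Z4) : HasSum (fun l => vf a (Pi.single l (w l) : Z4 → V) k) (vf a w k) :=
  hasSum_sum fun j _ => scv_dj_hasSum h1 (ha j) j hw k

theorem scv_hasSum (h1 : A1Stmt) {a : Z4 → ℂ} (ha : Rap a) {w : Z4 → V}
    (hw : PG w) (k : Z4) :
    HasSum (fun l => scv a (Pi.single l (w l) : Z4 → V) k) (scv a w k) := by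
  have h := (scv_sum h1 ha hw k).hasSum
  have e : (fun l => scv a (Pi.single l (w l) : Z4 → V) k) = fun l => a (k - l) • w l := by
    funext l
    rw [scv_single]
  rw [e]
  exact h

theorem cv_hasSum (h1 : A1Stmt) {a : Z4 → (V →L[ℂ] V)} (ha : Rap a) {w : Z4 → V}
    (hw : PG w) (k : Z4) :
    HasSum (fun l => cv a (Pi.single l (w l) : Z4 → V) k) (cv a w k) := by
  have h := (cv_sum h1 ha hw k).hasSum
  have e : (fun l => cv a (Pi.single l (w l) : Z4 → V) k) = fun l => (a (k - l)) (w l) := by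
    funext l
    rw [cv_single]
  rw [e]
  exact h

/-- linear maps on rapidly decreasing sequences. -/
structure RLin (T : (Z4 → V) → (Z4 → V)) : Prop where
  rap : ∀ v, Rap v → Rap (T v)
  add : ∀ v w, Rap v → Rap w → T (fun k => v k + w k) = fun k => T v k + T w k
  smul : ∀ (c : ℂ) (v : Z4 → V), Rap v → T (fun k => c • v k) = fun k => c • T v k

theorem RLin.id : RLin (fun w : Z4 → V => w) := ⟨fun _ h => h, fun _ _ _ _ => rfl,
  fun _ _ _ => rfl⟩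

theorem RLin.comp {T T' : (Z4 → V) → (Z4 → V)} (h : RLin T) (h' : RLin T') :
    RLin (fun w => T (T' w)) where
  rap v hv := h.rap _ (h'.rap _ hv)
  add v w hv hw := by rw [h'.add v w hv hw, h.add _ _ (h'.rap _ hv) (h'.rap _ hw)]
  smul c v hv := by rw [h'.smul c v hv, h.smul _ _ (h'.rap _ hv)]

theorem RLin.addF {T T' : (Z4 → V) → (Z4 → V)} (h : RLin T) (h' : RLin T') :
    RLin (fun w k => T w k + T' w k) where
  rap v hv := rap_add (h.rap _ hv) (h'.rap _ hv)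
  add v w hv hw := by
    funext k
    rw [h'.add v w hv hw, h.add v w hv hw]
    exact add_add_add_comm _ _ _ _
  smul c v hv := by
    funext k
    rw [h'.smul c v hv, h.smul c v hv, smul_add]

theorem RLin.smulF {T : (Z4 → V) → (Z4 → V)} (h : RLin T) (z : ℂ) :
    RLin (fun w k => z • T w k) where
  rap v hv := rap_smul (h.rap _ hv) z
  add v w hv hw := by
    funext k
    rw [h.add v w hv hw, smul_add]
  smul c v hv := by
    funext k
    rw [h.smul c v hv, smul_comm]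

theorem RLin.negF {T : (Z4 → V) → (Z4 → V)} (h : RLin T) :
    RLin (fun w k => - T w k) where
  rap v hv := rap_neg (h.rap _ hv)
  add v w hv hw := by
    funext k
    rw [h.add v w hv hw, neg_add]
  smul c v hv := by
    funext k
    rw [h.smul c v hv, smul_neg]

theorem RLin.djF (h1 : A1Stmt) (j : Fin 4) : RLin (dj j : (Z4 → V) → (Z4 → V)) where
  rap v hv := h1.2.2.1 V j v hv
  add v w hv hw := by
    funext k
    unfold dj
    rw [smul_add]
  smul c v hv := by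
    funext k
    unfold dj
    rw [smul_comm]

theorem RLin.scvF (h1 : A1Stmt) {a : Z4 → ℂ} (ha : Rap a) :
    RLin (scv a : (Z4 → V) → (Z4 → V)) where
  rap v hv := (h1.1 V a v ha hv).1
  add v w hv hw := by
    funext k
    have e1 := scv_sum h1 ha (rap_pg hv) k
    have e2 := scv_sum h1 ha (rap_pg hw) k
    unfold scv
    rw [← e1.tsum_add e2]
    exact tsum_congr fun l => smul_add _ _ _
  smul c v hv := by
    funext k
    unfold scv
    rw [← tsum_const_smul'']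
    exact tsum_congr fun l => smul_comm _ _ _

theorem RLin.cvF (h1 : A1Stmt) {a : Z4 → (V →L[ℂ] V)} (ha : Rap a) :
    RLin (cv a : (Z4 → V) → (Z4 → V)) where
  rap v hv := (h1.2.1 V a v ha hv).1
  add v w hv hw := by
    funext k
    have e1 := cv_sum h1 ha (rap_pg hv) k
    have e2 := cv_sum h1 ha (rap_pg hw) k
    unfold cv
    rw [← e1.tsum_add e2]
    exact tsum_congr fun l => map_add _ _ _
  smul c v hv := by
    funext k
    unfold cv
    rw [← tsum_const_smul'']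
    exact tsum_congr fun l => map_smul _ _ _

theorem RLin.congr {T T' : (Z4 → V) → (Z4 → V)} (h : RLin T) (e : T' = T) : RLin T' := e ▸ h

theorem RLin.vfF (h1 : A1Stmt) {a : Fin 4 → Z4 → ℂ} (ha : ∀ j, Rap (a j)) :
    RLin (vf a : (Z4 → V) → (Z4 → V)) := by
  have h := fun j : Fin 4 => (RLin.scvF h1 (ha j)).comp (RLin.djF (V := V) h1 j)
  refine ((((h 0).addF (h 1)).addF (h 2)).addF (h 3)).congr ?_
  funext w k
  unfold vf
  rw [Fin.sum_univ_four]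

theorem RLin.iter {T : (Z4 → V) → (Z4 → V)} (h : RLin T) (m : ℕ) : RLin (T^[m]) := by
  induction m with
  | zero => exact RLin.id
  | succ n ih => exact (ih.comp h).congr (by funext w; rw [Function.iterate_succ_apply])

end conv

section pairing

variable {V : Type} [NormedAddCommGroup V] [InnerProductSpace ℂ V] [CompleteSpace V]

theorem ip_scv (h1 : A1Stmt) {a : Z4 → ℂ} (ha : Rap a) {c v : Z4 → V} (hc : PG c)
    (hv : Rap v) : ip (scv a c) v = ip c (scv (stS a) v) := by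
  have hsa : Rap (stS a) := h1.2.2.2.1 a ha
  obtain ⟨n, C, hC, hs⟩ := sum_conv h1 ha hc
  set F : Z4 → Z4 → ℂ := fun k l => inner ℂ (a (k - l) • c l) (v k) with hF
  have hL : ∀ k, inner ℂ (scv a c k) (v k) = ∑' l, F k l := by
    intro k
    exact ContinuousLinearMap.map_tsum (innerSLFlip ℂ (v k)) (scv_sum h1 ha hc k)
  have hR : ∀ l, inner ℂ (c l) (scv (stS a) v l) = ∑' k, F k l := by
    intro l
    have := ContinuousLinearMap.map_tsum (innerSL ℂ (c l)) (scv_sum h1 hsa (rap_pg hv) l)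
    have e : inner ℂ (c l) (scv (stS a) v l) =
        (innerSL ℂ (c l)) (∑' k, stS a (l - k) • v k) := by
      rw [innerSL_apply_apply]
      rfl
    rw [e, this]
    refine tsum_congr fun k => ?_
    rw [innerSL_apply_apply, hF]
    simp only [stS, neg_sub, inner_smul_left, inner_smul_right]
  have hFs : Summable (Function.uncurry F) := by
    have hb : ∀ p : Z4 × Z4, ‖Function.uncurry F p‖ ≤
        (‖a (p.1 - p.2)‖ * ‖c p.2‖) * ‖v p.1‖ := by
      rintro ⟨k, l⟩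
      show ‖inner ℂ (a (k - l) • c l) (v k)‖ ≤ (‖a (k - l)‖ * ‖c l‖) * ‖v k‖
      rw [← norm_smul]
      exact norm_inner_le_norm _ _
    refine Summable.of_norm_bounded ?_ hb
    have h0 : (0 : Z4 × Z4 → ℝ) ≤ fun p => (‖a (p.1 - p.2)‖ * ‖c p.2‖) * ‖v p.1‖ :=
      fun p => mul_nonneg (mul_nonneg (norm_nonneg _) (norm_nonneg _)) (norm_nonneg _)
    refine (summable_prod_of_nonneg h0).2 ⟨fun k => ?_, ?_⟩
    · show Summable fun l => (‖a (k - l)‖ * ‖c l‖) * ‖v k‖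
      exact (hs k).1.mul_right _
    · have hv2 := (sum_wt h1 hv n).mul_left C
      refine Summable.of_nonneg_of_le (fun k => tsum_nonneg fun l => h0 (k, l))
        (fun k => ?_) hv2
      show ∑' l, (‖a (k - l)‖ * ‖c l‖) * ‖v k‖ ≤ _
      rw [tsum_mul_right]
      calc (∑' l, ‖a (k - l)‖ * ‖c l‖) * ‖v k‖ ≤ (C * Lam 1 k ^ n) * ‖v k‖ :=
            mul_le_mul_of_nonneg_right (hs k).2 (norm_nonneg _)
        _ = C * (Lam 1 k ^ n * ‖v k‖) := by ring
  unfold ip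
  calc ∑' k, inner ℂ (scv a c k) (v k) = ∑' k, ∑' l, F k l := tsum_congr hL
    _ = ∑' l, ∑' k, F k l := hFs.tsum_comm.symm
    _ = ∑' l, inner ℂ (c l) (scv (stS a) v l) := (tsum_congr hR).symm

theorem ip_iter (h1 : A1Stmt) {γ : Z4 → ℂ} (hγ : Rap γ) (hs : stS γ = γ) (m : ℕ) :
    ∀ {c v : Z4 → V}, PG c → Rap v → ip ((scv γ)^[m] c) v = ip c ((scv γ)^[m] v) := by
  induction m with
  | zero => intro c v _ _; rfl
  | succ n ih =>
    intro c v hc hv
    rw [Function.iterate_succ_apply, ih (scv_pg h1 hγ hc) hv,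
      ip_scv h1 hγ hc (((RLin.scvF h1 hγ).iter n).rap v hv), hs, Function.iterate_succ_apply']

theorem ip_single_right (w : Z4 → V) (k : Z4) (e : V) :
    ip w (Pi.single k e : Z4 → V) = inner ℂ (w k) e := by
  unfold ip
  rw [tsum_eq_single k]
  · rw [Pi.single_eq_same]
  · intro l hl
    rw [Pi.single_eq_of_ne hl, inner_zero_right]

theorem ip_single_left (w : Z4 → V) (k : Z4) (e : V) :
    ip (Pi.single k e : Z4 → V) w = inner ℂ e (w k) := by
  unfold ip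
  rw [tsum_eq_single k]
  · rw [Pi.single_eq_same]
  · intro l hl
    rw [Pi.single_eq_of_ne hl, inner_zero_left]

end pairing

/-- Hahn-Banach and Riesz for three maps. -/
theorem riesz3 {R : Type*} [AddCommGroup R] [Module ℂ R] {H : Type*} [NormedAddCommGroup H]
    [InnerProductSpace ℂ H] [CompleteSpace H] (T1 T2 T3 : R →ₗ[ℂ] H) (f : R →ₗ[ℂ] ℂ) (C : ℝ)
    (hC : 0 ≤ C) (hb : ∀ v, ‖f v‖ ≤ C * (‖T1 v‖ + ‖T2 v‖ + ‖T3 v‖)) :
    ∃ y1 y2 y3 : H, ∀ v, f v = inner ℂ y1 (T1 v) + inner ℂ y2 (T2 v) + inner ℂ y3 (T3 v) := by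
  set Θ : R →ₗ[ℂ] H × H × H := T1.prod (T2.prod T3) with hΘ
  have hΘa : ∀ v, Θ v = (T1 v, T2 v, T3 v) := fun v => rfl
  have hn1 : ∀ v, ‖T1 v‖ ≤ ‖Θ v‖ := fun v => norm_fst_le (T1 v, T2 v, T3 v)
  have hn23 : ∀ v, ‖(T2 v, T3 v)‖ ≤ ‖Θ v‖ := fun v => norm_snd_le (T1 v, T2 v, T3 v)
  have hn2 : ∀ v, ‖T2 v‖ ≤ ‖Θ v‖ := fun v => (norm_fst_le (T2 v, T3 v)).trans (hn23 v)
  have hn3 : ∀ v, ‖T3 v‖ ≤ ‖Θ v‖ := fun v => (norm_snd_le (T2 v, T3 v)).trans (hn23 v)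
  have hb' : ∀ v, ‖f v‖ ≤ (3 * C) * ‖Θ v‖ := by
    intro v
    refine (hb v).trans ?_
    have := add_le_add (add_le_add (hn1 v) (hn2 v)) (hn3 v)
    calc C * (‖T1 v‖ + ‖T2 v‖ + ‖T3 v‖) ≤ C * (‖Θ v‖ + ‖Θ v‖ + ‖Θ v‖) :=
          mul_le_mul_of_nonneg_left this hC
      _ = _ := by ring
  have hk : LinearMap.ker Θ ≤ LinearMap.ker f := by
    intro v hv
    rw [LinearMap.mem_ker] at hv ⊢
    have := hb' v
    rw [hv, norm_zero, mul_zero] at this
    exact norm_le_zero_iff.1 this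
  set g0 : LinearMap.range Θ →ₗ[ℂ] ℂ :=
    ((LinearMap.ker Θ).liftQ f hk) ∘ₗ (Θ.quotKerEquivRange.symm : _ →ₗ[ℂ] _) with hg0
  have hg0a : ∀ v (h : Θ v ∈ LinearMap.range Θ), g0 ⟨Θ v, h⟩ = f v := by
    intro v h
    rw [hg0]
    simp only [LinearMap.comp_apply, LinearEquiv.coe_coe]
    rw [LinearMap.quotKerEquivRange_symm_apply_image]
    rfl
  have hg0b : ∀ x, ‖g0 x‖ ≤ (3 * C) * ‖x‖ := by
    rintro ⟨x, hx⟩
    obtain ⟨v, rfl⟩ := LinearMap.mem_range.1 hx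
    rw [hg0a]
    exact hb' v
  obtain ⟨g, hg, -⟩ := exists_extension_norm_eq (LinearMap.range Θ)
    (g0.mkContinuous (3 * C) hg0b)
  have hgv : ∀ v, g (Θ v) = f v := by
    intro v
    have h := hg ⟨Θ v, LinearMap.mem_range_self Θ v⟩
    rw [LinearMap.mkContinuous_apply, hg0a] at h
    exact h
  refine ⟨(InnerProductSpace.toDual ℂ H).symm (g ∘L ContinuousLinearMap.inl ℂ H (H × H)),
    (InnerProductSpace.toDual ℂ H).symm
      (g ∘L ContinuousLinearMap.inr ℂ H (H × H) ∘L ContinuousLinearMap.inl ℂ H H),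
    (InnerProductSpace.toDual ℂ H).symm
      (g ∘L ContinuousLinearMap.inr ℂ H (H × H) ∘L ContinuousLinearMap.inr ℂ H H), fun v => ?_⟩
  rw [InnerProductSpace.toDual_symm_apply, InnerProductSpace.toDual_symm_apply,
    InnerProductSpace.toDual_symm_apply, ← hgv v, hΘa]
  show g (T1 v, T2 v, T3 v) = g (T1 v, 0) + g (0, T2 v, 0) + g (0, 0, T3 v)
  rw [← map_add, ← map_add]
  congr 1
  simp

section final

variable {N : ℕ}

/-- the space of rapidly decreasing sequences. -/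
noncomputable def RS (N : ℕ) : Submodule ℂ (Z4 → EuclideanSpace ℂ (Fin N)) where
  carrier := {v | Rap v}
  add_mem' := fun ha hb => rap_add ha hb
  zero_mem' := rap_zero
  smul_mem' := fun c _ hv => rap_smul hv c

/-- square summable sequences. -/
noncomputable abbrev HH (N : ℕ) := lp (fun _ : Z4 => EuclideanSpace ℂ (Fin N)) 2

theorem memH_iff (w : Z4 → EuclideanSpace ℂ (Fin N)) :
    Memℓp w 2 ↔ Summable fun k => ‖w k‖ ^ 2 := by
  rw [memℓp_gen_iff (by norm_num)]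
  simp only [ENNReal.toReal_ofNat, Real.rpow_two]

theorem norm_Lm (σ : ℤ) (w : Z4 → EuclideanSpace ℂ (Fin N)) (k : Z4) :
    ‖Lm 1 σ w k‖ ^ 2 = Lam 1 k ^ (2 * σ) * ‖w k‖ ^ 2 := by
  unfold Lm
  rw [norm_smul, Complex.norm_real, Real.norm_eq_abs, abs_of_pos (zpow_pos (Lam1_pos k) _),
    mul_pow, zpow_two_mul' (Lam1_pos k)]

theorem memH (h1 : A1Stmt) (σ : ℤ) {w : Z4 → EuclideanSpace ℂ (Fin N)} (hw : Rap w) :
    Memℓp (Lm 1 σ w) 2 := by
  rw [memH_iff]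
  simp only [norm_Lm]
  exact (h1.2.2.2.2.2.1 _ 1 σ w le_rfl hw).2.2

/-- the weighted map. -/
noncomputable def wt (h1 : A1Stmt) (σ : ℤ)
    {T : (Z4 → EuclideanSpace ℂ (Fin N)) → (Z4 → EuclideanSpace ℂ (Fin N))} (hT : RLin T) :
    RS N →ₗ[ℂ] HH N where
  toFun v := ⟨Lm 1 σ (T v.1), memH h1 σ (hT.rap _ v.2)⟩
  map_add' v w := by
    apply Subtype.ext
    funext k
    show Lm 1 σ (T (fun k => v.1 k + w.1 k)) k = Lm 1 σ (T v.1) k + Lm 1 σ (T w.1) k
    rw [hT.add v.1 w.1 v.2 w.2]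
    exact smul_add _ _ _
  map_smul' c v := by
    apply Subtype.ext
    funext k
    show Lm 1 σ (T (fun k => c • v.1 k)) k = c • Lm 1 σ (T v.1) k
    rw [hT.smul c v.1 v.2]
    exact smul_comm _ _ _

theorem norm_wt (h1 : A1Stmt) (σ : ℤ)
    {T : (Z4 → EuclideanSpace ℂ (Fin N)) → (Z4 → EuclideanSpace ℂ (Fin N))} (hT : RLin T)
    (v : RS N) : ‖wt h1 σ hT v‖ = hn 1 σ (T v.1) := by
  have h := lp.norm_rpow_eq_tsum (p := 2) (by norm_num) (wt h1 σ hT v)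
  simp only [ENNReal.toReal_ofNat, Real.rpow_two] at h
  have e : ∀ k, ‖(wt h1 σ hT v : Z4 → EuclideanSpace ℂ (Fin N)) k‖ ^ 2 =
      Lam 1 k ^ (2 * σ) * ‖T v.1 k‖ ^ 2 := fun k => norm_Lm σ (T v.1) k
  simp only [e] at h
  unfold hn
  rw [← h, Real.sqrt_sq (norm_nonneg _)]

theorem inner_wt (h1 : A1Stmt) (σ : ℤ)
    {T : (Z4 → EuclideanSpace ℂ (Fin N)) → (Z4 → EuclideanSpace ℂ (Fin N))} (hT : RLin T)
    (v : RS N) (y : HH N) :
    inner ℂ y (wt h1 σ hT v) = ip (Lm 1 σ (y : Z4 → EuclideanSpace ℂ (Fin N))) (T v.1) := by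
  rw [lp.inner_eq_tsum]
  unfold ip
  refine tsum_congr fun k => ?_
  show inner ℂ (y k) (((Lam 1 k ^ σ : ℝ) : ℂ) • T v.1 k) =
    inner ℂ (((Lam 1 k ^ σ : ℝ) : ℂ) • y k) (T v.1 k)
  rw [inner_smul_left, inner_smul_right, Complex.conj_ofReal]

theorem hs_wt (σ : ℤ) (y : HH N) :
    HS (-σ) (Lm 1 σ (y : Z4 → EuclideanSpace ℂ (Fin N))) := by
  have h := (memH_iff _).1 (lp.memℓp y)
  unfold HS
  refine h.congr fun k => ?_
  rw [norm_Lm, ← mul_assoc, ← zpow_add₀ (Lam1_pos k).ne']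
  rw [show 2 * -σ + 2 * σ = 0 by ring, zpow_zero, one_mul]

theorem RLin.QsF (h1 : A1Stmt) (D : TData N) (t : ℝ) : RLin (D.Qs t) := by
  have hst : ∀ j, Rap (stS (D.a j)) := fun j => h1.2.2.2.1 _ (D.ra j)
  have hdiv : Rap (fun l => ∑ j, dj j (stS (D.a j)) l) :=
    rap_sum4 fun j => h1.2.2.1 ℂ j _ (hst j)
  have hφ : Rap (vf (fun i => stS (D.a i)) D.φ) := (RLin.vfF (V := ℂ) h1 hst).rap _ D.rφ
  have hM : Rap (stM D.M) := h1.2.2.2.2.1 N D.M D.rM
  have e1 := (RLin.vfF (V := EuclideanSpace ℂ (Fin N)) h1 hst).negF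
  have e2 := (RLin.scvF (V := EuclideanSpace ℂ (Fin N)) h1 hdiv).negF
  have e3 := (RLin.scvF (V := EuclideanSpace ℂ (Fin N)) h1 hφ).smulF ((t / 2 : ℝ) : ℂ)
  have e4 := RLin.cvF (V := EuclideanSpace ℂ (Fin N)) h1 hM
  refine (((e1.addF e2).addF e3).addF e4).congr ?_
  funext w k
  unfold TData.Qs
  rw [sub_eq_add_neg]

theorem Q_hasSum (h1 : A1Stmt) (D : TData N) (t : ℝ) {c : Z4 → EuclideanSpace ℂ (Fin N)}
    (hc : PG c) (k : Z4) :
    HasSum (fun l => D.Q t (Pi.single l (c l) : Z4 → EuclideanSpace ℂ (Fin N)) k)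
      (D.Q t c k) := by
  have hφ : Rap (vf D.a D.φ) := (RLin.vfF (V := ℂ) h1 D.ra).rap _ D.rφ
  exact ((vf_hasSum h1 D.ra hc k).add ((scv_hasSum h1 hφ hc k).const_smul _)).add
    (cv_hasSum h1 D.rM hc k)

theorem ip_Q_single (h1 : A1Stmt) (h3 : A3Stmt) (D : TData N) (t : ℝ)
    {c : Z4 → EuclideanSpace ℂ (Fin N)} (hc : PG c) (k : Z4) (e : EuclideanSpace ℂ (Fin N)) :
    ip c (D.Qs t (Pi.single k e : Z4 → EuclideanSpace ℂ (Fin N))) = inner ℂ (D.Q t c k) e := by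
  have hQ := Q_hasSum h1 D t hc k
  have h := ContinuousLinearMap.map_tsum (innerSLFlip ℂ e) hQ.summable
  rw [hQ.tsum_eq] at h
  have h' : inner ℂ (D.Q t c k) e = ∑' l,
      inner ℂ (D.Q t (Pi.single l (c l) : Z4 → EuclideanSpace ℂ (Fin N)) k) e := h
  rw [h']
  unfold ip
  refine tsum_congr fun l => ?_
  rw [← ip_single_right (D.Q t (Pi.single l (c l) : Z4 → EuclideanSpace ℂ (Fin N))) k e,
    ← ip_single_left (D.Qs t (Pi.single k e : Z4 → EuclideanSpace ℂ (Fin N))) l (c l)]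
  exact (h3.2.2.2.2.2.2 N D t _ _ (rap_single l (c l)) (rap_single k e)).2.2.symm

theorem Lm_zero (w : Z4 → EuclideanSpace ℂ (Fin N)) : Lm 1 0 w = w := by
  funext k
  unfold Lm
  rw [zpow_zero, Complex.ofReal_one, one_smul]

theorem a10 (h1 : A1Stmt) (h3 : A3Stmt) (hM : MIStmt) : TCoreStmt := by
  intro N D m s
  rcases Nat.eq_zero_or_pos m with rfl | hm
  · refine ⟨0, fun b hb => ⟨fun _ => 0, b, fun _ => 0, ?_, ?_, ?_, fun k => ?_⟩⟩
    · unfold HS; simp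
    · exact (h1.2.2.2.2.2.1 _ 1 _ b le_rfl hb).2.2
    · unfold HS; simp
    · simp [TData.Q, vf, scv, dj, cv]
  · obtain ⟨t, C, hC⟩ := hM N D m s hm
    refine ⟨t, fun b hb => ?_⟩
    have hγm := (RLin.scvF (V := EuclideanSpace ℂ (Fin N)) h1 D.rγ).iter m
    have hχ := RLin.scvF (V := EuclideanSpace ℂ (Fin N)) h1 D.rχ
    set T0 := wt h1 0 (RLin.id (V := EuclideanSpace ℂ (Fin N))) with hT0
    set f : RS N →ₗ[ℂ] ℂ := (innerSL ℂ (T0 ⟨b, hb⟩) : HH N →ₗ[ℂ] ℂ) ∘ₗ T0 with hf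
    have hfa : ∀ v : RS N, f v = ip b v.1 := by
      intro v
      have h := inner_wt h1 0 (RLin.id (V := EuclideanSpace ℂ (Fin N))) v (T0 ⟨b, hb⟩)
      have e : (T0 ⟨b, hb⟩ : Z4 → EuclideanSpace ℂ (Fin N)) = Lm 1 0 b := rfl
      rw [e, Lm_zero, Lm_zero] at h
      exact h
    have hfb : ∀ v : RS N, ‖f v‖ ≤ (hn 1 (s : ℤ) b * |C|) *
        (‖wt h1 (-(s : ℤ)) (RLin.QsF h1 D t) v‖ + ‖wt h1 ((m : ℤ) - s) hγm v‖ +
          ‖wt h1 (1 - (s : ℤ)) hχ v‖) := by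
      intro v
      rw [hfa, norm_wt, norm_wt, norm_wt]
      have e1 := h3.2.2.2.2.1 (EuclideanSpace ℂ (Fin N)) 1 (s : ℤ) b v.1 le_rfl hb v.2
      have e2 := hC v.1 v.2
      have e3 : 0 ≤ hn 1 (s : ℤ) b := Real.sqrt_nonneg _
      have e4 : 0 ≤ hn 1 (-(s : ℤ)) (D.Qs t v.1) + hn 1 ((m : ℤ) - s) ((scv D.γ)^[m] v.1) +
          hn 1 (1 - (s : ℤ)) (scv D.χ v.1) :=
        add_nonneg (add_nonneg (Real.sqrt_nonneg _) (Real.sqrt_nonneg _)) (Real.sqrt_nonneg _)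
      refine e1.trans ?_
      rw [mul_assoc]
      refine mul_le_mul_of_nonneg_left (e2.trans ?_) e3
      exact mul_le_mul_of_nonneg_right (le_abs_self C) e4
    obtain ⟨y1, y2, y3, hy⟩ := riesz3 (wt h1 (-(s : ℤ)) (RLin.QsF h1 D t))
      (wt h1 ((m : ℤ) - s) hγm) (wt h1 (1 - (s : ℤ)) hχ) f (hn 1 (s : ℤ) b * |C|)
      (mul_nonneg (Real.sqrt_nonneg _) (abs_nonneg _)) hfb
    have k1 := hs_wt (-(s : ℤ)) y1
    have k2 := hs_wt ((m : ℤ) - s) y2
    have k3 := hs_wt (1 - (s : ℤ)) y3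
    rw [neg_neg] at k1
    rw [neg_sub] at k2 k3
    refine ⟨Lm 1 (-(s : ℤ)) (y1 : Z4 → EuclideanSpace ℂ (Fin N)),
      Lm 1 ((m : ℤ) - s) (y2 : Z4 → EuclideanSpace ℂ (Fin N)),
      Lm 1 (1 - (s : ℤ)) (y3 : Z4 → EuclideanSpace ℂ (Fin N)), k1, k2, k3, fun k => ?_⟩
    refine ext_inner_right ℂ fun e => ?_
    have hv := rap_single k e
    have h := hy ⟨Pi.single k e, hv⟩
    rw [hfa, inner_wt, inner_wt, inner_wt] at h
    rw [inner_add_left, inner_add_left]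
    have a1 := ip_Q_single h1 h3 D t (hs_pg k1) k e
    have a2 := ip_iter h1 D.rγ D.sγ m (hs_pg k2) hv
    have a3 := ip_scv h1 D.rχ (hs_pg k3) hv
    rw [ip_single_right] at a2 a3
    rw [D.sχ] at a3
    rw [← a1, a2, a3]
    have h0 : ip b (Pi.single k e : Z4 → EuclideanSpace ℂ (Fin N)) = inner ℂ (b k) e :=
      ip_single_right b k e
    rw [← h0]
    exact h.symm

end final

end Pool.Agent.AK.H7
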