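import Pool.Agent.Helper60_AK.StmtA

set_option autoImplicit false

/-! Squad AK, module A5: multiplication and commutator estimates. -/

namespace Pool.Agent.AK.H7

open Complex

theorem sq4_nonneg (k : Z4) : 0 ≤ sq4 k := by
  unfold sq4; exact Finset.sum_nonneg fun i _ => sq_nonneg _

theorem Lam_pos {A : ℝ} (hA : 1 ≤ A) (k : Z4) : 0 < Lam A k :=
  Real.sqrt_pos.2 (by linarith [sq4_nonneg k])

theorem Lam_one_le {A : ℝ} (hA : 1 ≤ A) (k : Z4) : 1 ≤ Lam A k :=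
  Real.one_le_sqrt.2 (by linarith [sq4_nonneg k])

/-- The Euclidean norm. -/
noncomputable def nm (k : Z4) : ℝ := Real.sqrt (sq4 k)

theorem nm_nonneg (k : Z4) : 0 ≤ nm k := Real.sqrt_nonneg _

theorem sq4_neg (k : Z4) : sq4 (-k) = sq4 k := by
  unfold sq4; simp

theorem nm_sub_comm (k l : Z4) : nm (k - l) = nm (l - k) := by
  unfold nm; rw [← sq4_neg (k - l), neg_sub]

theorem Lam_le_add {A : ℝ} (hA : 1 ≤ A) (k l : Z4) : Lam A k ≤ Lam A l + nm (k - l) := by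
  have h0 : 0 ≤ Lam A l := (Lam_pos hA l).le
  have h1 := nm_nonneg (k - l)
  refine Real.sqrt_le_iff.2 ⟨by positivity, ?_⟩
  have e1 : Lam A l ^ 2 = A + sq4 l := Real.sq_sqrt (by linarith [sq4_nonneg l])
  have e2 : nm (k - l) ^ 2 = sq4 (k - l) := Real.sq_sqrt (sq4_nonneg _)
  set D : ℝ := ∑ i, ((l i : ℤ) : ℝ) * (((k - l) i : ℤ) : ℝ) with hD
  have e3 : sq4 k = sq4 l + 2 * D + sq4 (k - l) := by
    unfold sq4
    rw [hD, Finset.mul_sum, ← Finset.sum_add_distrib, ← Finset.sum_add_distrib]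
    refine Finset.sum_congr rfl fun i _ => ?_
    simp only [Pi.sub_apply]
    push_cast
    ring
  have e4 : D ^ 2 ≤ sq4 l * sq4 (k - l) := by
    unfold sq4
    exact Finset.sum_mul_sq_le_sq_mul_sq _ _ _
  have e5 : D ≤ Lam A l * nm (k - l) := by
    refine le_of_sq_le_sq' ?_ (by positivity)
    rw [mul_pow, e1, e2]
    nlinarith [sq4_nonneg (k - l), sq4_nonneg l]
  nlinarith
  where
    le_of_sq_le_sq' {x y : ℝ} (h : x ^ 2 ≤ y ^ 2) (hy : 0 ≤ y) : x ≤ y := by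
      exact le_trans (le_abs_self x) (abs_le_of_sq_le_sq h hy)

theorem one_add_nm (n : Z4) : 1 + nm n ≤ 2 * Lam 1 n := by
  have h1 : nm n ≤ Lam 1 n := Real.sqrt_le_sqrt (by linarith)
  have h2 := Lam_one_le le_rfl n
  linarith

/-- Peetre. -/
theorem peetre {A : ℝ} (hA : 1 ≤ A) (k l : Z4) : Lam A k ≤ Lam A l * (2 * Lam 1 (k - l)) := by
  have h1 := Lam_le_add hA k l
  have h2 := Lam_one_le hA l
  have h3 := one_add_nm (k - l)
  have h4 := nm_nonneg (k - l)
  nlinarith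

theorem Lam_one_sub (k l : Z4) : Lam 1 (k - l) = Lam 1 (l - k) := by
  unfold Lam; rw [← sq4_neg (k - l), neg_sub]

theorem zpow_two_mul' {x : ℝ} (hx : 0 < x) (s : ℤ) : x ^ (2 * s) = (x ^ s) ^ 2 := by
  rw [two_mul, zpow_add₀ hx.ne', sq]

/-- comparison of integer powers. -/
theorem zpow_cmp {x y ρ : ℝ} (hx : 0 < x) (hy : 0 < y) (hρ : 1 ≤ ρ) (h1 : x ≤ y * ρ)
    (h2 : y ≤ x * ρ) (s : ℤ) : x ^ s ≤ y ^ s * ρ ^ s.natAbs := by
  obtain ⟨n, rfl | rfl⟩ := s.eq_nat_or_neg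
  · rw [zpow_natCast, zpow_natCast, Int.natAbs_natCast, ← mul_pow]
    exact pow_le_pow_left₀ hx.le h1 n
  · rw [zpow_neg, zpow_neg, zpow_natCast, zpow_natCast, Int.natAbs_neg, Int.natAbs_natCast,
      inv_mul_eq_div, inv_le_comm₀ (by positivity) (by positivity), inv_div,
      div_le_iff₀ (by positivity), ← mul_pow]
    exact pow_le_pow_left₀ hy.le h2 n

theorem pow_diff {x y : ℝ} (hx : 0 < x) (hy : 0 < y) (B : ℝ) (hxB : x ≤ B) (hyB : y ≤ B)
    (n : ℕ) : |x ^ (n + 1) - y ^ (n + 1)| ≤ (n + 1) * |x - y| * B ^ n := by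
  induction n with
  | zero => simp
  | succ n ih =>
    have e1 : x ^ (n + 1 + 1) - y ^ (n + 1 + 1) =
        x * (x ^ (n + 1) - y ^ (n + 1)) + (x - y) * y ^ (n + 1) := by ring
    have hB : 0 < B := hx.trans_le hxB
    rw [e1]
    refine (abs_add_le _ _).trans ?_
    rw [abs_mul, abs_mul, abs_of_pos hx, abs_of_pos (pow_pos hy _)]
    have h1 : x * |x ^ (n + 1) - y ^ (n + 1)| ≤ B * ((n + 1) * |x - y| * B ^ n) :=
      mul_le_mul hxB ih (abs_nonneg _) hB.le
    have h2 : |x - y| * y ^ (n + 1) ≤ |x - y| * B ^ (n + 1) :=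
      mul_le_mul_of_nonneg_left (pow_le_pow_left₀ hy.le hyB _) (abs_nonneg _)
    push_cast
    calc x * |x ^ (n + 1) - y ^ (n + 1)| + |x - y| * y ^ (n + 1)
        ≤ B * ((n + 1) * |x - y| * B ^ n) + |x - y| * B ^ (n + 1) := add_le_add h1 h2
      _ = (n + 1 + 1) * |x - y| * B ^ (n + 1) := by ring

theorem zpow_diff {x y ρ : ℝ} (hx : 0 < x) (hy : 0 < y) (hρ : 1 ≤ ρ) (h1 : x ≤ y * ρ)
    (h2 : y ≤ x * ρ) (h3 : |x - y| ≤ ρ) (s : ℤ) :
    |x ^ s - y ^ s| ≤ (s.natAbs : ℝ) * ρ ^ (2 * s.natAbs) * y ^ (s - 1) := by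
  obtain ⟨n, hn⟩ := s.eq_nat_or_neg
  rcases n with _ | n
  · have : s = 0 := by rcases hn with h | h <;> simpa using h
    subst this
    simp
  · have hB : y ≤ y * ρ := by nlinarith
    have key := pow_diff hx hy (y * ρ) h1 hB n
    have k2 : |x ^ (n + 1) - y ^ (n + 1)| ≤ (n + 1) * ρ ^ (n + 1) * y ^ n := by
      refine key.trans ?_
      calc (n + 1) * |x - y| * (y * ρ) ^ n ≤ (n + 1) * ρ * (y * ρ) ^ n := by
            refine mul_le_mul_of_nonneg_right ?_ (by positivity)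
            exact mul_le_mul_of_nonneg_left h3 (by positivity)
        _ = (n + 1) * ρ ^ (n + 1) * y ^ n := by rw [mul_pow]; ring
    rcases hn with rfl | rfl
    · rw [Int.natAbs_natCast]
      have e1 : (((n + 1 : ℕ) : ℤ) - 1) = (n : ℤ) := by push_cast; ring
      rw [e1, zpow_natCast, zpow_natCast, zpow_natCast]
      refine k2.trans ?_
      push_cast
      refine mul_le_mul_of_nonneg_right ?_ (by positivity)
      refine mul_le_mul_of_nonneg_left ?_ (by positivity)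
      exact pow_le_pow_right₀ hρ (by omega)
    · rw [Int.natAbs_neg, Int.natAbs_natCast]
      have e1 : (-((n + 1 : ℕ) : ℤ) - 1) = -((n + 2 : ℕ) : ℤ) := by push_cast; ring
      rw [e1, zpow_neg, zpow_neg, zpow_neg, zpow_natCast, zpow_natCast, zpow_natCast]
      have hxn : 0 < x ^ (n + 1) := by positivity
      have hyn : 0 < y ^ (n + 1) := by positivity
      have e2 : (x ^ (n + 1))⁻¹ - (y ^ (n + 1))⁻¹ =
          (y ^ (n + 1) - x ^ (n + 1)) * ((x ^ (n + 1))⁻¹ * (y ^ (n + 1))⁻¹) := by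
        field_simp
      rw [e2, abs_mul, abs_of_pos (show 0 < (x ^ (n + 1))⁻¹ * (y ^ (n + 1))⁻¹ by positivity),
        abs_sub_comm]
      have h4 : (x ^ (n + 1))⁻¹ ≤ ρ ^ (n + 1) * (y ^ (n + 1))⁻¹ := by
        rw [← div_eq_mul_inv, inv_le_comm₀ hxn (by positivity), inv_div,
          div_le_iff₀ (by positivity), ← mul_pow]
        exact pow_le_pow_left₀ hy.le h2 _
      calc |x ^ (n + 1) - y ^ (n + 1)| * ((x ^ (n + 1))⁻¹ * (y ^ (n + 1))⁻¹)
          ≤ ((n + 1) * ρ ^ (n + 1) * y ^ n) *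
            ((ρ ^ (n + 1) * (y ^ (n + 1))⁻¹) * (y ^ (n + 1))⁻¹) := by
            refine mul_le_mul k2 ?_ (by positivity) (by positivity)
            exact mul_le_mul_of_nonneg_right h4 (by positivity)
        _ = ((n + 1 : ℕ) : ℝ) * ρ ^ (2 * (n + 1)) * (y ^ (n + 2))⁻¹ := by
            push_cast
            rw [pow_succ y n, pow_add y n 2]
            field_simp
            ring

/-- The kernel estimate. -/
theorem kernel_bound (h4 : A4Stmt) (V : Type) [NormedAddCommGroup V] [NormedSpace ℂ V]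
    [CompleteSpace V] (A : ℝ) (hA : 1 ≤ A) (s' p : ℤ) (κ : Z4 → Z4 → ℝ)
    (a : Z4 → (V →L[ℂ] V)) (g : Z4 → ℝ) (hg : ∀ n, 0 ≤ g n) (hgs : Summable g)
    (hκ : ∀ k l, |Lam A k ^ s' * κ k l * Lam A l ^ (-p)| * ‖a (k - l)‖ ≤ g (k - l))
    (w u : Z4 → V) (hw : Summable fun k => Lam A k ^ (2 * p) * ‖w k‖ ^ 2)
    (hu : ∀ k, u k = ∑' l, ((κ k l : ℝ) : ℂ) • (a (k - l)) (w l)) :
    hn A s' u ≤ (∑' n, g n) * hn A p w := by
  set W : Z4 → V := fun l => ((Lam A l ^ p : ℝ) : ℂ) • w l with hW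
  set K : Z4 → Z4 → (V →L[ℂ] V) := fun k l =>
    ((Lam A k ^ s' * κ k l * Lam A l ^ (-p) : ℝ) : ℂ) • a (k - l) with hK
  have hWn : ∀ k, ‖W k‖ ^ 2 = Lam A k ^ (2 * p) * ‖w k‖ ^ 2 := by
    intro k
    rw [hW]
    simp only [norm_smul, Complex.norm_real, Real.norm_eq_abs]
    rw [abs_of_pos (zpow_pos (Lam_pos hA k) _), mul_pow, zpow_two_mul' (Lam_pos hA k)]
  have hKn : ∀ k l, ‖K k l‖ ≤ g (k - l) := by
    intro k l
    rw [hK]
    simp only [norm_smul, Complex.norm_real, Real.norm_eq_abs]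
    exact hκ k l
  have hsum : Summable fun k => ‖W k‖ ^ 2 := by
    simp only [hWn]; exact hw
  obtain ⟨r1, r2, r3⟩ := h4 V K g W hg hgs hKn hsum
  have hKW : ∀ k l, K k l (W l) = ((Lam A k ^ s' : ℝ) : ℂ) •
      (((κ k l : ℝ) : ℂ) • (a (k - l)) (w l)) := by
    intro k l
    rw [hK, hW]
    simp only [smul_apply, map_smul, smul_smul]
    congr 1
    rw [← Complex.ofReal_mul, ← Complex.ofReal_mul]
    congr 1
    have : Lam A l ^ (-p) * Lam A l ^ p = 1 := by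
      rw [← zpow_add₀ (Lam_pos hA l).ne', neg_add_cancel, zpow_zero]
    linear_combination (Lam A k ^ s' * κ k l) * this
  have hsumKW : ∀ k, ∑' l, K k l (W l) = ((Lam A k ^ s' : ℝ) : ℂ) • u k := by
    intro k
    rw [hu k, ← tsum_const_smul'']
    exact tsum_congr fun l => hKW k l
  have hun : ∀ k, ‖∑' l, K k l (W l)‖ ^ 2 = Lam A k ^ (2 * s') * ‖u k‖ ^ 2 := by
    intro k
    rw [hsumKW, norm_smul, Complex.norm_real, Real.norm_eq_abs,
      abs_of_pos (zpow_pos (Lam_pos hA k) _), mul_pow, zpow_two_mul' (Lam_pos hA k)]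
  simp only [hun, hWn] at r3
  unfold hn
  have hG : 0 ≤ ∑' n, g n := tsum_nonneg hg
  calc Real.sqrt (∑' k, Lam A k ^ (2 * s') * ‖u k‖ ^ 2)
      ≤ Real.sqrt ((∑' n, g n) ^ 2 * ∑' k, Lam A k ^ (2 * p) * ‖w k‖ ^ 2) := Real.sqrt_le_sqrt r3
    _ = (∑' n, g n) * Real.sqrt (∑' k, Lam A k ^ (2 * p) * ‖w k‖ ^ 2) := by
        rw [Real.sqrt_mul (sq_nonneg _), Real.sqrt_sq hG]

theorem a5 (h1 : A1Stmt) (h4 : A4Stmt) : A5Stmt := by
  obtain ⟨-, c2, -, -, -, c6, -⟩ := h1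
  have gsum : ∀ (V : Type) [NormedAddCommGroup V] [NormedSpace ℂ V] [CompleteSpace V]
      (a : Z4 → (V →L[ℂ] V)) (c : ℝ) (n : ℕ), Rap a →
      Summable fun k => c * (2 * Lam 1 k) ^ n * ‖a k‖ := by
    intro V _ _ _ a c n ha
    obtain ⟨-, h, -⟩ := c6 (V →L[ℂ] V) 1 (n : ℤ) a le_rfl ha
    have := h.mul_left (c * 2 ^ n)
    refine this.congr fun k => ?_
    rw [zpow_natCast, mul_pow]; ring
  refine ⟨?_, ?_⟩
  · intro V _ _ _ s a ha
    set g : Z4 → ℝ := fun k => 1 * (2 * Lam 1 k) ^ s.natAbs * ‖a k‖ with hg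
    have hg0 : ∀ n, 0 ≤ g n := fun n => by
      have := (Lam_pos le_rfl n).le
      rw [hg]; positivity
    refine ⟨∑' n, g n, tsum_nonneg hg0, fun A hA w hw => ?_⟩
    obtain ⟨-, -, hw2⟩ := c6 V A s w hA hw
    refine kernel_bound h4 V A hA s s (fun _ _ => 1) a g hg0 (gsum V a 1 _ ha) ?_ w (cv a w) hw2 ?_
    · intro k l
      rw [hg]
      refine mul_le_mul_of_nonneg_right ?_ (norm_nonneg _)
      have hx := Lam_pos hA k
      have hy := Lam_pos hA l
      rw [mul_one, abs_of_pos (by positivity), one_mul, zpow_neg, ← div_eq_mul_inv,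
        div_le_iff₀ (by positivity), mul_comm]
      refine zpow_cmp hx hy ?_ (peetre hA k l) ?_ s
      · have := Lam_one_le le_rfl (k - l); linarith
      · rw [Lam_one_sub]; exact peetre hA l k
    · intro k
      unfold cv
      exact tsum_congr fun l => by simp
  · intro V _ _ _ s s' a ha
    set g : Z4 → ℝ := fun k => (s.natAbs : ℝ) * (2 * Lam 1 k) ^ (s'.natAbs + 2 * s.natAbs) * ‖a k‖
      with hg
    have hg0 : ∀ n, 0 ≤ g n := fun n => by
      have := (Lam_pos le_rfl n).le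
      rw [hg]; positivity
    refine ⟨∑' n, g n, tsum_nonneg hg0, fun A hA w hw => ?_⟩
    obtain ⟨hr, -, -⟩ := c6 V A s w hA hw
    obtain ⟨-, -, hw2⟩ := c6 V A (s + s' - 1) w hA hw
    refine kernel_bound h4 V A hA s' (s + s' - 1) (fun k l => Lam A k ^ s - Lam A l ^ s) a g hg0
      (gsum V a _ _ ha) ?_ w _ hw2 ?_
    · intro k l
      rw [hg]
      refine mul_le_mul_of_nonneg_right ?_ (norm_nonneg _)
      have hx := Lam_pos hA k
      have hy := Lam_pos hA l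
      have hρ : 1 ≤ 2 * Lam 1 (k - l) := by
        have := Lam_one_le le_rfl (k - l); linarith
      have hp1 := peetre hA k l
      have hp2 : Lam A l ≤ Lam A k * (2 * Lam 1 (k - l)) := by
        rw [Lam_one_sub]; exact peetre hA l k
      have hd : |Lam A k - Lam A l| ≤ 2 * Lam 1 (k - l) := by
        have a1 := Lam_le_add hA k l
        have a2 := Lam_le_add hA l k
        rw [nm_sub_comm l k] at a2
        have a3 := one_add_nm (k - l)
        rw [abs_le]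
        constructor <;> linarith
      set x := Lam A k
      set y := Lam A l
      set ρ := 2 * Lam 1 (k - l)
      have z1 := zpow_cmp hx hy hρ hp1 hp2 s'
      have z2 := zpow_diff hx hy hρ hp1 hp2 hd s
      rw [abs_mul, abs_mul, abs_of_pos (zpow_pos hx _), abs_of_pos (zpow_pos hy _)]
      have e : y ^ s' * y ^ (s - 1) * y ^ (-(s + s' - 1)) = 1 := by
        rw [← zpow_add₀ hy.ne', ← zpow_add₀ hy.ne']
        rw [show s' + (s - 1) + -(s + s' - 1) = 0 by ring, zpow_zero]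
      have hρ0 : 0 < ρ := by linarith
      calc x ^ s' * |x ^ s - y ^ s| * y ^ (-(s + s' - 1))
          ≤ (y ^ s' * ρ ^ s'.natAbs) * ((s.natAbs : ℝ) * ρ ^ (2 * s.natAbs) * y ^ (s - 1)) *
            y ^ (-(s + s' - 1)) := by
            refine mul_le_mul_of_nonneg_right ?_ (zpow_pos hy _).le
            exact mul_le_mul z1 z2 (abs_nonneg _) (by positivity)
        _ = (s.natAbs : ℝ) * ρ ^ (s'.natAbs + 2 * s.natAbs) *
            (y ^ s' * y ^ (s - 1) * y ^ (-(s + s' - 1))) := by rw [pow_add]; ring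
        _ = (s.natAbs : ℝ) * ρ ^ (s'.natAbs + 2 * s.natAbs) := by rw [e, mul_one]
    · intro k
      obtain ⟨-, f1⟩ := c2 V a w ha hw
      obtain ⟨-, f2⟩ := c2 V a (Lm A s w) ha hr
      have f1' := (f1 k).const_smul ((Lam A k ^ s : ℝ) : ℂ)
      have f2' := f2 k
      have g1 : Lm A s (cv a w) k = ∑' l, ((Lam A k ^ s : ℝ) : ℂ) • (a (k - l)) (w l) := by
        show ((Lam A k ^ s : ℝ) : ℂ) • (cv a w k) = _
        unfold cv
        rw [← tsum_const_smul'']
      have g2 : cv a (Lm A s w) k = ∑' l, (a (k - l)) (Lm A s w l) := rfl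
      show Lm A s (cv a w) k - cv a (Lm A s w) k = _
      rw [g1, g2, ← f1'.tsum_sub f2']
      refine tsum_congr fun l => ?_
      show ((Lam A k ^ s : ℝ) : ℂ) • (a (k - l)) (w l) -
        (a (k - l)) (((Lam A l ^ s : ℝ) : ℂ) • w l) = _
      rw [map_smul, ← sub_smul, Complex.ofReal_sub]

end Pool.Agent.AK.H7
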